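import Pool.Agent.Helper927_pe.Base

/-!
# Powers `n ^ x` with exponents `x = a + b π + c e`, `P(π)`, `P(e)`

Is `n ^ π` or `n ^ e` rational for some `n ≥ 2`? We bound the multiplicative rank of the set of the
exceptional `n`, simultaneously for all exponents `a + b π`, `a + b e`, `a + b π + c e` with algebraic
coefficients, and for the exponents `P(π)`, `P(e)` with polynomials of bounded degree with algebraic
coefficients. The proof uses the strong six exponentials theorem and the hyperplane case of the linear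
subgroup theorem (starting files `Pool.Agent.W254.HP`, `Pool.Agent.HP778`) and Baker's theorem.
-/

set_option autoImplicit false

namespace Pool.Agent.Results.MP_ee2255_nt.ExceptionalBases

open Module Finset Polynomial
open Pool.Agent.HP778
open Pool.Agent.Helper927_pe

/-- The linear combinations, with algebraic coefficients, of `1` and of logarithms of algebraic
numbers. -/
noncomputable def LogForms : Submodule (algebraicClosure ℚ ℂ) ℂ :=
  Submodule.span (algebraicClosure ℚ ℂ) ({1} ∪ {z : ℂ | IsAlgebraic ℚ (Complex.exp z)})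

/-- The numbers `e ^ z` with `z` in `LogForms`, i.e. the numbers `e ^ γ α_1 ^ β_1 ⋯ α_k ^ β_k` with
algebraic `γ`, `α_i ≠ 0`, `β_i`. -/
def Prods : Set ℂ := {x | ∃ z ∈ LogForms, Complex.exp z = x}

/-- the numbers `a + b t` with algebraic `a`, `b`, `b ≠ 0` -/
def lin (t : ℂ) : Set ℂ := {x | ∃ a b : ℂ, IsAlgebraic ℚ a ∧ IsAlgebraic ℚ b ∧ b ≠ 0 ∧
  x = a + b * t}

/-- the numbers `a + b s + c t` with algebraic `a`, `b`, `c` which are not algebraic -/
def lin₂ (s t : ℂ) : Set ℂ := {x | Transcendental ℚ x ∧ ∃ a b c : ℂ, IsAlgebraic ℚ a ∧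
  IsAlgebraic ℚ b ∧ IsAlgebraic ℚ c ∧ x = a + b * s + c * t}

/-- the numbers `P(t)` with nonconstant polynomials `P` of degree at most `D` with algebraic
coefficients -/
def poly (D : ℕ) (t : ℂ) : Set ℂ := {x | ∃ P : Polynomial (algebraicClosure ℚ ℂ),
  1 ≤ P.natDegree ∧ P.natDegree ≤ D ∧ x = Polynomial.aeval t P}

/-- The positive integer `n` is exceptional for the set `E` of exponents if `n ^ x` is in `Prods` for
SOME `x` in `E`. -/
def Exc (E : Set ℂ) (n : ℕ) : Prop := 1 ≤ n ∧ ∃ x ∈ E, (n : ℂ) ^ x ∈ Prods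

/-- The rank of the set of the exceptional integers is at most `r`: any `r + 1` of them are
multiplicatively dependent. -/
def RankLe (E : Set ℂ) (r : ℕ) : Prop := ∀ n : Fin (r + 1) → ℕ, (∀ i, Exc E (n i)) →
  ∃ a : Fin (r + 1) → ℤ, a ≠ 0 ∧ ∏ i, (n i : ℝ) ^ a i = 1

open Classical in
/-- The number of the exceptional integers between `1` and `N`. -/
noncomputable def count (E : Set ℂ) (N : ℕ) : ℕ :=
  ((Finset.Icc 1 N).filter fun n : ℕ => ∃ x ∈ E, (n : ℂ) ^ x ∈ Prods).card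

/-- The number of the exceptional integers between `1` and `N` is at most `(log₂ N + 1) ^ r`. -/
def CountLe (E : Set ℂ) (r : ℕ) : Prop := ∀ N : ℕ, count E N ≤ (Nat.log 2 N + 1) ^ r

/-- both bounds from a bound for the number of independent logarithms -/
theorem both {E : Set ℂ} {r : ℕ}
    (h : ∀ (m : ℕ) (l : Fin m → ℂ), (∀ i, IsAlgebraic ℚ (Complex.exp (l i))) →
      LinearIndependent ℚ l → (∀ i, ∃ x ∈ E, x * l i ∈ Pool.Agent.H301R2.SSE.Lt) → m ≤ r) :
    RankLe E r ∧ CountLe E r := by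
  classical
  have hmem : ∀ n : ℕ, 1 ≤ n → (∃ x ∈ E, (n : ℂ) ^ x ∈ Prods) →
      ∃ x ∈ E, x * lg n ∈ Pool.Agent.H301R2.SSE.Lt := by
    rintro n hn ⟨x, hx, z, hz, hze⟩
    rw [natCast_cpow hn] at hze
    exact ⟨x, hx, mem_of_exp hz hze.symm⟩
  constructor
  · intro n hn
    by_contra hcon
    have hli : LinearIndependent ℚ (fun i => lg (n i)) := by
      rw [← LinearIndependent.iff_fractionRing ℤ ℚ]
      by_contra hnot
      rw [Fintype.not_linearIndependent_iff] at hnot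
      obtain ⟨g, hg, i, hi⟩ := hnot
      apply hcon
      refine ⟨g, fun h0 => hi (by rw [h0]; rfl), ?_⟩
      have hg' : ∑ i, (g i : ℝ) * Real.log (n i) = 0 := by
        have h2 : ((∑ i, (g i : ℝ) * Real.log (n i) : ℝ) : ℂ) = 0 := by
          rw [← hg]
          push_cast
          refine Finset.sum_congr rfl fun i _ => ?_
          rw [zsmul_eq_mul]
        exact_mod_cast h2
      have h3 : ∀ i, (n i : ℝ) ^ g i = Real.exp ((g i : ℝ) * Real.log (n i)) := by
        intro i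
        have hp : (0 : ℝ) < n i := by exact_mod_cast (hn i).1
        rw [mul_comm, ← Real.rpow_def_of_pos hp, Real.rpow_intCast]
      calc ∏ i, (n i : ℝ) ^ g i = ∏ i, Real.exp ((g i : ℝ) * Real.log (n i)) :=
            Finset.prod_congr rfl fun i _ => h3 i
        _ = Real.exp (∑ i, (g i : ℝ) * Real.log (n i)) := (Real.exp_sum _ _).symm
        _ = 1 := by rw [hg', Real.exp_zero]
    have := h (r + 1) (fun i => lg (n i)) (fun i => exp_log_alg (hn i).1) hli
      (fun i => hmem _ (hn i).1 (hn i).2)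
    omega
  · intro N
    have h1 := count_of (N := N) (r := r) (fun n => ∃ x ∈ E, (n : ℂ) ^ x ∈ Prods) (by
      intro m n hn halg hli
      exact h m _ halg hli fun i => hmem _ (hn i).1 (hn i).2)
    refine le_trans (le_of_eq ?_) h1
    congr

/-- `x = a + b t` is a polynomial in `t` -/
theorem lin_le {t x : ℂ} (h : x ∈ lin t) : x ∈ poly 1 t := by
  obtain ⟨a, b, ha, hb, hb0, rfl⟩ := h
  have hb' : (⟨b, Pool.Agent.H301R2.SSE.mem_QB.mpr hb⟩ : algebraicClosure ℚ ℂ) ≠ 0 := by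
    intro h0
    exact hb0 (congrArg Subtype.val h0)
  refine ⟨C ⟨b, Pool.Agent.H301R2.SSE.mem_QB.mpr hb⟩ * X +
    C ⟨a, Pool.Agent.H301R2.SSE.mem_QB.mpr ha⟩, ?_, ?_, ?_⟩
  · rw [natDegree_linear hb']
  · rw [natDegree_linear hb']
  · rw [map_add, map_mul, aeval_C, aeval_C, aeval_X]
    change a + b * t = b * t + a
    ring

theorem lin₂_mem {x : ℂ} (h : x ∈ lin₂ piC eC) : x ∈ SP ![(1 : ℂ), piC, eC] := by
  obtain ⟨-, a, b, c, ha, hb, hc, rfl⟩ := h
  have key : ∀ {a z : ℂ}, IsAlgebraic ℚ a → z ∈ SP ![(1 : ℂ), piC, eC] →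
      a * z ∈ SP ![(1 : ℂ), piC, eC] := fun ha hz =>
    (SP ![(1 : ℂ), piC, eC]).smul_mem
      (⟨_, Pool.Agent.H301R2.SSE.mem_QB.mpr ha⟩ : Pool.Agent.H301R2.SSE.QB) hz
  refine Submodule.add_mem _ (Submodule.add_mem _ ?_ ?_) ?_
  · have := key ha (mem_SP ![(1 : ℂ), piC, eC] 0)
    simpa using this
  · exact key hb (mem_SP ![(1 : ℂ), piC, eC] 1)
  · exact key hc (mem_SP ![(1 : ℂ), piC, eC] 2)

/-- two numbers with exponents linear in a number `t` in `LogForms` -/
theorem two_logs {t : ℂ} (ht : Transcendental ℚ t) (htL : t ∈ Pool.Agent.H301R2.SSE.Lt) {l l' : ℂ}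
    (hl : IsAlgebraic ℚ (Complex.exp l)) (hl' : IsAlgebraic ℚ (Complex.exp l'))
    (hw : t * l ∈ Pool.Agent.H301R2.SSE.Lt) (hw' : t * l' ∈ Pool.Agent.H301R2.SSE.Lt) :
    ¬ LinearIndependent ℚ ![l, l'] := by
  intro hli
  have h := logs_poly' ht htL (D := 1) le_rfl ![l, l'] ?_ hli ?_
  · omega
  · intro i
    fin_cases i
    · exact hl
    · exact hl'
  · intro i
    refine ⟨X, by simp, by simp, ?_⟩
    rw [aeval_X]
    fin_cases i
    · exact hw
    · exact hw'

/-- `π i` and `log n` are independent -/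
theorem pi_log {n : ℕ} (hn : 2 ≤ n) : LinearIndependent ℚ ![piC * Complex.I, lg n] := by
  have hl : LinearIndependent ℚ (fun _ : Fin 1 => lg n - lg 1) := by
    rw [linearIndependent_unique_iff]
    intro h0
    have := lg_inj (by omega) le_rfl h0
    omega
  have h := indep_pi (fun i => lg_sub_im _ _) hl
  have h2 : (fun i : Fin (1 + 1) => (finSuccEquiv 1 i).elim (piC * Complex.I)
      (fun _ : Fin 1 => lg n - lg 1)) = ![piC * Complex.I, lg n] := by
    funext i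
    fin_cases i
    · simp
    · have h3 : (finSuccEquiv 1) 1 = some 0 := finSuccEquiv_succ (0 : Fin 1)
      simp [h3]
  rw [h2] at h
  exact h

theorem mul_mem_of_lin {t x l : ℂ} (hx : x ∈ lin t) (hl : l ∈ Pool.Agent.H301R2.SSE.Lt)
    (h : x * l ∈ Pool.Agent.H301R2.SSE.Lt) : t * l ∈ Pool.Agent.H301R2.SSE.Lt := by
  obtain ⟨a, b, ha, hb, hb0, rfl⟩ := hx
  have h1 := Pool.Agent.H301R2.SSE.Lt_mul hb.inv
    (Submodule.sub_mem _ h (Pool.Agent.H301R2.SSE.Lt_mul ha hl))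
  have h2 : t * l = b⁻¹ * ((a + b * t) * l - a * l) := by
    field_simp
    ring
  rw [h2]
  exact h1

/-- The set `S` of integers is empty or the set `{m, m ^ 2, m ^ 3, …}` of the powers of ONE integer
`m ≥ 2`. -/
def Geometric (S : Set ℕ) : Prop := S = ∅ ∨ ∃ m : ℕ, 2 ≤ m ∧ S = {n | ∃ j : ℕ, 1 ≤ j ∧ n = m ^ j}

/-- two dependent integers are powers of a third one -/
theorem common_base {m n : ℕ} (hm : 2 ≤ m) (hn : 2 ≤ n) {a b : ℤ} (hab : ¬ (a = 0 ∧ b = 0))
    (h : (m : ℝ) ^ a * (n : ℝ) ^ b = 1) :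
    ∃ c p q : ℕ, 1 ≤ p ∧ 1 ≤ q ∧ p.Coprime q ∧ m = c ^ p ∧ n = c ^ q := by
  have hm1 : (1 : ℝ) < m := by exact_mod_cast (by omega : 1 < m)
  have hn1 : (1 : ℝ) < n := by exact_mod_cast (by omega : 1 < n)
  have hlm : 0 < Real.log m := Real.log_pos hm1
  have hln : 0 < Real.log n := Real.log_pos hn1
  have h1 : (a : ℝ) * Real.log m + b * Real.log n = 0 := by
    have := congrArg Real.log h
    rwa [Real.log_mul (zpow_ne_zero _ (by positivity)) (zpow_ne_zero _ (by positivity)),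
      Real.log_zpow, Real.log_zpow, Real.log_one] at this
  have key : ∀ p q : ℕ, 1 ≤ p → 1 ≤ q → (p : ℝ) * Real.log m = q * Real.log n →
      ∃ c p q : ℕ, 1 ≤ p ∧ 1 ≤ q ∧ p.Coprime q ∧ m = c ^ p ∧ n = c ^ q := by
    intro p q hp hq hpq
    have h2 : m ^ p = n ^ q := by
      have h3 : ((m : ℝ)) ^ p = (n : ℝ) ^ q := by
        apply Real.log_injOn_pos (Set.mem_Ioi.mpr (by positivity)) (Set.mem_Ioi.mpr (by positivity))
        rw [Real.log_pow, Real.log_pow, hpq]
      exact_mod_cast h3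
    obtain ⟨c, hc1, hc2⟩ := Nat.exists_eq_pow_of_pow_eq_pow (Or.inl (by omega)) h2
    have hg : 0 < Nat.gcd p q := Nat.gcd_pos_of_pos_left _ (by omega)
    exact ⟨c, q / Nat.gcd p q, p / Nat.gcd p q,
      Nat.div_pos (Nat.gcd_le_right _ (by omega)) hg,
      Nat.div_pos (Nat.gcd_le_left _ (by omega)) hg,
      (Nat.coprime_div_gcd_div_gcd hg).symm, hc1, hc2⟩
  have ha0 : a ≠ 0 := by
    rintro rfl
    apply hab
    refine ⟨rfl, ?_⟩
    have : (b : ℝ) * Real.log n = 0 := by simpa using h1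
    rcases mul_eq_zero.mp this with h2 | h2
    · exact_mod_cast h2
    · exact absurd h2 hln.ne'
  rcases lt_or_gt_of_ne ha0 with ha | ha
  · have hb : 0 < b := by
      by_contra hb
      have h2 : (b : ℝ) ≤ 0 := by exact_mod_cast (not_lt.mp hb)
      have h3 : (a : ℝ) < 0 := by exact_mod_cast ha
      nlinarith [mul_pos_of_neg_of_neg h3 (neg_lt_zero.mpr hlm), mul_nonneg (neg_nonneg.mpr h2) hln.le]
    obtain ⟨p, hp⟩ := Int.eq_ofNat_of_zero_le (neg_nonneg.mpr ha.le)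
    obtain ⟨q, hq⟩ := Int.eq_ofNat_of_zero_le hb.le
    refine key p q (by omega) (by omega) ?_
    have e1 : (p : ℝ) = -a := by
      have : ((p : ℤ) : ℝ) = ((-a : ℤ) : ℝ) := by rw [hp]
      push_cast at this
      exact this
    have e2 : (q : ℝ) = b := by
      have : ((q : ℤ) : ℝ) = ((b : ℤ) : ℝ) := by rw [hq]
      exact_mod_cast this
    rw [e1, e2]
    linarith
  · have hb : b < 0 := by
      by_contra hb
      have h2 : (0 : ℝ) ≤ b := by exact_mod_cast (not_lt.mp hb)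
      have h3 : (0 : ℝ) < a := by exact_mod_cast ha
      nlinarith [mul_pos h3 hlm, mul_nonneg h2 hln.le]
    obtain ⟨p, hp⟩ := Int.eq_ofNat_of_zero_le ha.le
    obtain ⟨q, hq⟩ := Int.eq_ofNat_of_zero_le (neg_nonneg.mpr hb.le)
    refine key p q (by omega) (by omega) ?_
    have e1 : (p : ℝ) = a := by
      have : ((p : ℤ) : ℝ) = ((a : ℤ) : ℝ) := by rw [hp]
      exact_mod_cast this
    have e2 : (q : ℝ) = -b := by
      have : ((q : ℤ) : ℝ) = ((-b : ℤ) : ℝ) := by rw [hq]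
      push_cast at this
      exact this
    rw [e1, e2]
    linarith

/-- the sets of `n` with `n ^ x` in a group are sets of powers of one integer -/
theorem geometric_of {x : ℂ} (hrank : ∀ n : Fin 2 → ℕ, (∀ i, 2 ≤ n i ∧ (n i : ℂ) ^ x ∈ Prods) →
      ∃ a : Fin 2 → ℤ, a ≠ 0 ∧ ∏ i, (n i : ℝ) ^ a i = 1) (G : Set ℂ)
    (hG : ∀ z ∈ G, z ≠ 0 → z ∈ Prods) (hmul : ∀ z ∈ G, ∀ w ∈ G, z * w ∈ G)
    (hpow : ∀ z ∈ G, z ≠ 0 → ∀ k : ℤ, z ^ k ∈ G) :
    Geometric {n : ℕ | 2 ≤ n ∧ (n : ℂ) ^ x ∈ G} := by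
  classical
  rcases Set.eq_empty_or_nonempty {n : ℕ | 2 ≤ n ∧ (n : ℂ) ^ x ∈ G} with h0 | hne
  · exact Or.inl h0
  right
  have hne0 : ∀ n : ℕ, 2 ≤ n → (n : ℂ) ^ x ≠ 0 := by
    intro n hn
    rw [natCast_cpow (by omega)]
    exact Complex.exp_ne_zero _
  set m := sInf {n : ℕ | 2 ≤ n ∧ (n : ℂ) ^ x ∈ G} with hmdef
  have hm : m ∈ {n : ℕ | 2 ≤ n ∧ (n : ℂ) ^ x ∈ G} := Nat.sInf_mem hne
  have hpw : ∀ (c : ℕ) (j : ℕ), 1 ≤ c → ((c ^ j : ℕ) : ℂ) ^ x = ((c : ℂ) ^ x) ^ (j : ℤ) := by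
    intro c j hc
    rw [natCast_cpow (Nat.one_le_pow _ _ hc), natCast_cpow hc, ← Complex.exp_int_mul]
    congr 1
    push_cast
    rw [Real.log_pow]
    push_cast
    ring
  refine ⟨m, hm.1, Set.Subset.antisymm ?_ ?_⟩
  · rintro n ⟨hn2, hnG⟩
    obtain ⟨a, ha0, ha⟩ := hrank ![m, n] (by
      intro i
      fin_cases i
      · exact ⟨hm.1, hG _ hm.2 (hne0 _ hm.1)⟩
      · exact ⟨hn2, hG _ hnG (hne0 _ hn2)⟩)
    rw [Fin.prod_univ_two] at ha
    obtain ⟨c, p, q, hp, hq, hpq, hmc, hnc⟩ := common_base hm.1 hn2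
      (a := a 0) (b := a 1) (by
        rintro ⟨h1, h2⟩
        apply ha0
        funext i
        fin_cases i
        · exact h1
        · exact h2) ha
    have hc2 : 2 ≤ c := by
      by_contra hcon
      have : c = 0 ∨ c = 1 := by omega
      have hm2 := hm.1
      rcases this with rfl | rfl
      · rw [hmc, zero_pow (by omega)] at hm2
        omega
      · rw [hmc, one_pow] at hm2
        omega
    have hcG : (c : ℂ) ^ x ∈ G := by
      have hbez := Nat.gcd_eq_gcd_ab p q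
      rw [Nat.Coprime] at hpq
      rw [hpq] at hbez
      have h1 : (c : ℂ) ^ x = (((c ^ p : ℕ) : ℂ) ^ x) ^ (Nat.gcdA p q) *
          (((c ^ q : ℕ) : ℂ) ^ x) ^ (Nat.gcdB p q) := by
        rw [hpw c p (by omega), hpw c q (by omega), ← zpow_mul, ← zpow_mul,
          ← zpow_add₀ (hne0 c hc2), ← hbez]
        simp
      rw [h1, ← hmc, ← hnc]
      exact hmul _ (hpow _ hm.2 (hne0 _ hm.1) _) _ (hpow _ hnG (hne0 _ hn2) _)
    have hle : m ≤ c := Nat.sInf_le ⟨hc2, hcG⟩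
    have hp1 : p = 1 := by
      by_contra hp1
      have h1 : c ^ 2 ≤ c ^ p := Nat.pow_le_pow_right (by omega) (by omega)
      nlinarith
    rw [hp1, pow_one] at hmc
    exact ⟨q, hq, by rw [hmc]; exact hnc⟩
  · rintro n ⟨j, hj, rfl⟩
    have hm2 := hm.1
    refine ⟨le_trans hm2 (Nat.le_self_pow (by omega) m), ?_⟩
    rw [hpw m j (by omega)]
    exact hpow _ hm.2 (hne0 _ hm2) _

/-- **Main result.** `lin t` are the numbers `a + b t` with algebraic `a`, `b ≠ 0`. An integer `n` is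
exceptional for a set `E` of exponents if `n ^ x` is in `Prods` (for instance: algebraic) for SOME `x`
in `E`. `RankLe E r`: any `r + 1` exceptional integers are multiplicatively dependent. `CountLe E r`: at
most `(log₂ N + 1) ^ r` exceptional integers up to `N`, for every `N`.

(0) The set of the integers `n ≥ 2` with `n ^ π` rational is empty or the set of all the powers `m ^ j`,
`j ≥ 1`, of ONE integer `m`. The same holds for the sets of the integers `n ≥ 2` with `n ^ x` rational,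
algebraic, and in `Prods`, for each fixed exponent `x = a + b π` with algebraic `a`, `b`, `b ≠ 0`. For the
exponents `a + b π` and `a + b e` together any four exceptional integers are multiplicatively dependent,
and at most `L + L ^ 2` exceptional integers are at most `N`, where `L = log₂ N + 1`.

(1) For the exponents `a + b π` the rank is at most `1`: `n ^ x` and `m ^ y` can be in `Prods` only if `n`
and `m` are multiplicatively dependent. If there is an exceptional `n ≥ 2`, then no number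
`e ^ (a + b π + c π ^ 2)` with algebraic `a`, `b`, `c ≠ 0` is in `Prods`.

(2) For the exponents `a + b e` the rank is at most `2`. If `e ^ (a + b e)` is in `Prods` for some
algebraic `a`, `b ≠ 0`, for instance if `e ^ e` is algebraic, it is at most `1`. If in addition `π e` is
in `LogForms`, for instance algebraic, no `n ≥ 2` is exceptional.

(3) For the exponents `a + b π + c e` which are not algebraic the rank is at most `5`.

(4) For the exponents `P(π)` with nonconstant polynomials of degree at most `D` the rank is at most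
`4 D - 3`, and for the exponents `P(e)` at most `4 D - 2`.

(5) All nonzero algebraic numbers are in `Prods`, and all algebraic numbers are in `LogForms`. -/
theorem result :
    ((Geometric {n : ℕ | 2 ≤ n ∧ ∃ q : ℚ, (n : ℝ) ^ Real.pi = q} ∧
      ∀ x ∈ lin (Real.pi : ℝ), Geometric {n : ℕ | 2 ≤ n ∧ ∃ q : ℚ, (n : ℂ) ^ x = q} ∧
        Geometric {n : ℕ | 2 ≤ n ∧ IsAlgebraic ℚ ((n : ℂ) ^ x)} ∧
        Geometric {n : ℕ | 2 ≤ n ∧ (n : ℂ) ^ x ∈ Prods}) ∧
      RankLe (lin (Real.pi : ℝ) ∪ lin (Real.exp 1 : ℝ)) 3 ∧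
      ∀ N : ℕ, count (lin (Real.pi : ℝ) ∪ lin (Real.exp 1 : ℝ)) N ≤
        (Nat.log 2 N + 1) + (Nat.log 2 N + 1) ^ 2) ∧
    (RankLe (lin (Real.pi : ℝ)) 1 ∧ CountLe (lin (Real.pi : ℝ)) 1 ∧
      ((∃ n : ℕ, 2 ≤ n ∧ Exc (lin (Real.pi : ℝ)) n) → ∀ a b c : ℂ, IsAlgebraic ℚ a →
        IsAlgebraic ℚ b → IsAlgebraic ℚ c → c ≠ 0 →
        Complex.exp (a + b * (Real.pi : ℝ) + c * (Real.pi : ℝ) ^ 2) ∉ Prods)) ∧
    (RankLe (lin (Real.exp 1 : ℝ)) 2 ∧ CountLe (lin (Real.exp 1 : ℝ)) 2 ∧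
      ((∃ x ∈ lin (Real.exp 1 : ℝ), Complex.exp x ∈ Prods) →
        RankLe (lin (Real.exp 1 : ℝ)) 1 ∧ CountLe (lin (Real.exp 1 : ℝ)) 1 ∧
        (((Real.pi * Real.exp 1 : ℝ) : ℂ) ∈ LogForms →
          ∀ n : ℕ, 2 ≤ n → ¬ Exc (lin (Real.exp 1 : ℝ)) n))) ∧
    (RankLe (lin₂ (Real.pi : ℝ) (Real.exp 1 : ℝ)) 5 ∧
      CountLe (lin₂ (Real.pi : ℝ) (Real.exp 1 : ℝ)) 5) ∧
    (∀ D : ℕ, 1 ≤ D → (RankLe (poly D (Real.pi : ℝ)) (4 * D - 3) ∧
      CountLe (poly D (Real.pi : ℝ)) (4 * D - 3)) ∧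
      (RankLe (poly D (Real.exp 1 : ℝ)) (4 * D - 2) ∧
      CountLe (poly D (Real.exp 1 : ℝ)) (4 * D - 2))) ∧
    ((∀ x : ℂ, x ≠ 0 → IsAlgebraic ℚ x → x ∈ Prods) ∧
      ∀ x : ℂ, IsAlgebraic ℚ x → x ∈ LogForms) := by
  classical
  have hpi : ∀ D : ℕ, 1 ≤ D → RankLe (poly D (Real.pi : ℝ)) (4 * D - 3) ∧
      CountLe (poly D (Real.pi : ℝ)) (4 * D - 3) := fun D hD => both fun m l halg hli h =>
    logs_poly' pi_tr pi_mem_Lt hD l halg hli fun i => by
      obtain ⟨x, ⟨P, h1, h2, rfl⟩, hx⟩ := h i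
      exact ⟨P, h1, h2, hx⟩
  have hL : ∀ {l : ℂ}, IsAlgebraic ℚ (Complex.exp l) → l ∈ Pool.Agent.H301R2.SSE.Lt := fun h =>
    Pool.Agent.H301R2.SSE.Lt_log h
  have hpie : ((Real.pi * Real.exp 1 : ℝ) : ℂ) = piC * eC := by push_cast; rfl
  have hmono : ∀ {t : ℂ} {r : ℕ}, RankLe (poly 1 t) r ∧ CountLe (poly 1 t) r →
      RankLe (lin t) r ∧ CountLe (lin t) r := by
    intro t r h
    constructor
    · intro n hn
      exact h.1 n fun i => ⟨(hn i).1, by
        obtain ⟨x, hx, hxp⟩ := (hn i).2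
        exact ⟨x, lin_le hx, hxp⟩⟩
    · intro N
      refine le_trans (Finset.card_le_card ?_) (h.2 N)
      intro n hn
      rw [Finset.mem_filter] at hn ⊢
      obtain ⟨hnI, x, hx, hxp⟩ := hn
      exact ⟨hnI, x, lin_le hx, hxp⟩
  have he : ∀ D : ℕ, 1 ≤ D → RankLe (poly D (Real.exp 1 : ℝ)) (4 * D - 2) ∧
      CountLe (poly D (Real.exp 1 : ℝ)) (4 * D - 2) := fun D hD => both fun m l halg hli h =>
    logs_poly e_tr hD l halg hli fun i => by
      obtain ⟨x, ⟨P, h1, h2, rfl⟩, hx⟩ := h i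
      exact ⟨P, h1, h2, hx⟩
  have hexc : ∀ {t : ℂ} {n : ℕ}, Exc (lin t) n → t * lg n ∈ Pool.Agent.H301R2.SSE.Lt := by
    rintro t n ⟨hn, x, hx, z, hz, hze⟩
    rw [natCast_cpow hn] at hze
    exact mul_mem_of_lin hx (hL (exp_log_alg hn)) (mem_of_exp hz hze.symm)
  have halgP : ∀ z : ℂ, IsAlgebraic ℚ z → z ≠ 0 → z ∈ Prods := by
    intro z hz hz0
    refine ⟨Complex.log z, ?_, Complex.exp_log hz0⟩
    refine Submodule.subset_span (Or.inr ?_)
    change IsAlgebraic ℚ (Complex.exp (Complex.log z))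
    rwa [Complex.exp_log hz0]
  have hrk1 := (hmono (hpi 1 le_rfl)).1
  have hrk2 := (hmono (he 1 le_rfl)).1
  have hgeo : ∀ x ∈ lin (Real.pi : ℝ), Geometric {n : ℕ | 2 ≤ n ∧ ∃ q : ℚ, (n : ℂ) ^ x = q} ∧
        Geometric {n : ℕ | 2 ≤ n ∧ IsAlgebraic ℚ ((n : ℂ) ^ x)} ∧
        Geometric {n : ℕ | 2 ≤ n ∧ (n : ℂ) ^ x ∈ Prods} := by
    intro x hx
    have hr : ∀ n : Fin 2 → ℕ, (∀ i, 2 ≤ n i ∧ (n i : ℂ) ^ x ∈ Prods) →
        ∃ a : Fin 2 → ℤ, a ≠ 0 ∧ ∏ i, (n i : ℝ) ^ a i = 1 := fun n hn =>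
      hrk1 n fun i => ⟨le_trans (by norm_num) (hn i).1, x, hx, (hn i).2⟩
    refine ⟨?_, ?_, ?_⟩
    · refine geometric_of hr {z : ℂ | ∃ q : ℚ, z = q} ?_ ?_ ?_
      · rintro z ⟨q, rfl⟩ hz0
        exact halgP _ (isAlgebraic_algebraMap q) hz0
      · rintro z ⟨q, rfl⟩ w ⟨r, rfl⟩
        exact ⟨q * r, by push_cast; rfl⟩
      · rintro z ⟨q, rfl⟩ hz0 k
        exact ⟨q ^ k, by push_cast; rfl⟩
    · refine geometric_of hr {z : ℂ | IsAlgebraic ℚ z} halgP ?_ ?_
      · intro z hz w hw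
        exact IsAlgebraic.mul hz hw
      · intro z hz hz0 k
        change IsAlgebraic ℚ (z ^ k)
        have hz' : IsAlgebraic ℚ z := hz
        rcases k with k | k
        · rw [Int.ofNat_eq_natCast, zpow_natCast]
          exact hz'.pow k
        · rw [zpow_negSucc]
          exact (hz'.pow (k + 1)).inv
    · refine geometric_of hr Prods (fun z hz _ => hz) ?_ ?_
      · rintro z ⟨u, hu, rfl⟩ w ⟨v, hv, rfl⟩
        exact ⟨u + v, LogForms.add_mem hu hv, Complex.exp_add _ _⟩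
      · rintro z ⟨u, hu, rfl⟩ hz0 k
        refine ⟨(k : ℂ) * u, ?_, Complex.exp_int_mul u k⟩
        have := LogForms.toAddSubgroup.zsmul_mem hu k
        rwa [zsmul_eq_mul] at this
  have hunion : RankLe (lin (Real.pi : ℝ) ∪ lin (Real.exp 1 : ℝ)) 3 := by
    intro n hn
    have hcase : ∀ i, Exc (lin (Real.pi : ℝ)) (n i) ∨ Exc (lin (Real.exp 1 : ℝ)) (n i) := by
      intro i
      obtain ⟨h1, x, hx, hxP⟩ := hn i
      rcases hx with hx | hx
      · exact Or.inl ⟨h1, x, hx, hxP⟩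
      · exact Or.inr ⟨h1, x, hx, hxP⟩
    have hext : ∀ (k : ℕ) (f : Fin k → Fin (3 + 1)), Function.Injective f →
        (∃ a : Fin k → ℤ, a ≠ 0 ∧ ∏ i, (n (f i) : ℝ) ^ a i = 1) →
        ∃ a : Fin (3 + 1) → ℤ, a ≠ 0 ∧ ∏ i, (n i : ℝ) ^ a i = 1 := by
      rintro k f hf ⟨a, ha0, ha⟩
      refine ⟨Function.extend f a 0, ?_, ?_⟩
      · intro h0
        apply ha0
        funext i
        have := congrFun h0 (f i)
        rwa [hf.extend_apply] at this
      · rw [← ha]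
        symm
        apply Finset.prod_of_injOn f hf.injOn (fun _ _ => Finset.mem_coe.mpr (Finset.mem_univ _))
        · intro j _ hj
          rw [Function.extend_apply' _ _ _ (by
            rintro ⟨i, rfl⟩
            exact hj ⟨i, by simp, rfl⟩)]
          simp
        · intro i _
          rw [hf.extend_apply]
    by_cases h2 : ∃ i j, i ≠ j ∧ Exc (lin (Real.pi : ℝ)) (n i) ∧ Exc (lin (Real.pi : ℝ)) (n j)
    · obtain ⟨i, j, hij, hi, hj⟩ := h2
      refine hext 2 ![i, j] ?_ (hrk1 _ ?_)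
      · intro u v huv
        fin_cases u <;> fin_cases v <;> simp_all
      · intro u
        fin_cases u
        · exact hi
        · exact hj
    · push Not at h2
      -- at least three are exceptional for e
      have h3 : ∃ i₀ : Fin (3 + 1), ∀ j, j ≠ i₀ → Exc (lin (Real.exp 1 : ℝ)) (n j) := by
        by_cases h4 : ∃ i, Exc (lin (Real.pi : ℝ)) (n i)
        · obtain ⟨i, hi⟩ := h4
          exact ⟨i, fun j hj => (hcase j).resolve_left (h2 i j (Ne.symm hj) hi)⟩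
        · push Not at h4
          exact ⟨0, fun j _ => (hcase j).resolve_left (h4 j)⟩
      obtain ⟨i₀, hi₀⟩ := h3
      exact hext 3 (Fin.succAbove i₀) Fin.succAbove_right_injective
        (hrk2 _ fun i => hi₀ _ (Fin.succAbove_ne _ _))
  have hcount : ∀ N : ℕ, count (lin (Real.pi : ℝ) ∪ lin (Real.exp 1 : ℝ)) N ≤
        (Nat.log 2 N + 1) + (Nat.log 2 N + 1) ^ 2 := by
    intro N
    have h1 := (hmono (hpi 1 le_rfl)).2 N
    have h2 := (hmono (he 1 le_rfl)).2 N
    rw [show (4 * 1 - 3 : ℕ) = 1 from rfl, pow_one] at h1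
    refine le_trans (le_trans (Finset.card_le_card ?_) (Finset.card_union_le _ _))
      (Nat.add_le_add h1 h2)
    intro n hn
    rw [Finset.mem_filter] at hn
    obtain ⟨hnI, x, hx, hxp⟩ := hn
    rw [Finset.mem_union, Finset.mem_filter, Finset.mem_filter]
    rcases hx with hx | hx
    · exact Or.inl ⟨hnI, x, hx, hxp⟩
    · exact Or.inr ⟨hnI, x, hx, hxp⟩
  have hpiL : ((Real.pi : ℝ) : ℂ) ∈ lin (Real.pi : ℝ) :=
    ⟨0, 1, isAlgebraic_zero, isAlgebraic_one, one_ne_zero, by ring⟩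
  have hreal : Geometric {n : ℕ | 2 ≤ n ∧ ∃ q : ℚ, (n : ℝ) ^ Real.pi = q} := by
    have h1 := (hgeo _ hpiL).1
    have h2 : {n : ℕ | 2 ≤ n ∧ ∃ q : ℚ, (n : ℝ) ^ Real.pi = q} =
        {n : ℕ | 2 ≤ n ∧ ∃ q : ℚ, (n : ℂ) ^ ((Real.pi : ℝ) : ℂ) = q} := by
      ext n
      simp only [Set.mem_ofPred_eq]
      refine and_congr_right fun hn => exists_congr fun q => ?_
      have h3 : (n : ℂ) ^ ((Real.pi : ℝ) : ℂ) = (((n : ℝ) ^ Real.pi : ℝ) : ℂ) := by
        rw [Complex.ofReal_cpow (Nat.cast_nonneg n)]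
        push_cast
        rfl
      rw [h3]
      norm_cast
    rw [h2]
    exact h1
  refine ⟨⟨⟨hreal, hgeo⟩, hunion, hcount⟩,
    ⟨(hmono (hpi 1 le_rfl)).1, (hmono (hpi 1 le_rfl)).2, ?_⟩,
    ⟨(hmono (he 1 le_rfl)).1, (hmono (he 1 le_rfl)).2, ?_⟩, ?_,
    fun D hD => ⟨hpi D hD, he D hD⟩, fun x hx0 hx => ?_,
    fun x hx => Pool.Agent.H301R2.SSE.Lt_alg hx⟩
  · rintro ⟨n, hn, hexn⟩ a b c ha hb hc hc0 ⟨z, hz, hze⟩
    have h1 := mem_of_exp hz hze.symm
    have h2 : a + b * piC ∈ Pool.Agent.H301R2.SSE.Lt :=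
      Submodule.add_mem _ (Pool.Agent.H301R2.SSE.Lt_alg ha)
        (Pool.Agent.H301R2.SSE.Lt_mul hb pi_mem_Lt)
    have h3 := Submodule.sub_mem _ h1 h2
    have h4 := Pool.Agent.H301R2.SSE.Lt_mul (hc.inv.mul Pool.Agent.H340R2.LW.isAlgebraic_I) h3
    have h5 : piC * (piC * Complex.I) =
        c⁻¹ * Complex.I * (a + b * piC + c * piC ^ 2 - (a + b * piC)) := by
      field_simp
      ring
    refine two_logs pi_tr pi_mem_Lt (l := piC * Complex.I) (l' := lg n) alg_piI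
      (exp_log_alg (by omega)) ?_ (hexc hexn) (pi_log hn)
    rw [h5]
    exact h4
  · rintro ⟨x, hx, z, hz, hze⟩
    have h1 := mem_of_exp hz hze.symm
    have heL : eC ∈ Pool.Agent.H301R2.SSE.Lt := by
      have := mul_mem_of_lin (l := 1) hx Pool.Agent.H301R2.SSE.Lt_one (by rw [mul_one]; exact h1)
      rwa [mul_one] at this
    have h2 : RankLe (poly 1 (Real.exp 1 : ℝ)) 1 ∧ CountLe (poly 1 (Real.exp 1 : ℝ)) 1 :=
      both fun m l halg hli h => logs_poly' e_tr heL le_rfl l halg hli fun i => by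
        obtain ⟨x, ⟨P, h1, h2, rfl⟩, hx⟩ := h i
        exact ⟨P, h1, h2, hx⟩
    refine ⟨(hmono h2).1, (hmono h2).2, fun hpe n hn hexn => ?_⟩
    rw [hpie] at hpe
    refine two_logs e_tr heL (l := piC * Complex.I) (l' := lg n) alg_piI
      (exp_log_alg (by omega)) ?_ (hexc hexn) (pi_log hn)
    have : eC * (piC * Complex.I) = Complex.I * (piC * eC) := by ring
    rw [this]
    exact Pool.Agent.H301R2.SSE.Lt_mul Pool.Agent.H340R2.LW.isAlgebraic_I hpe
  · refine both fun m l halg hli h => ?_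
    choose x hx hxl using h
    have h := rank_PE (⊥ : Submodule Pool.Agent.H301R2.SSE.QB ℂ) l x 0 halg hli
      (fun i => lin₂_mem (hx i)) (fun i => (hx i).1) (fun i => Submodule.zero_mem _)
      (fun i => by
        change x i * l i + 0 ∈ _
        rw [add_zero]
        exact hxl i)
    rw [finrank_bot] at h
    omega
  · refine ⟨Complex.log x, ?_, Complex.exp_log hx0⟩
    refine Submodule.subset_span (Or.inr ?_)
    change IsAlgebraic ℚ (Complex.exp (Complex.log x))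
    rwa [Complex.exp_log hx0]

end Pool.Agent.Results.MP_ee2255_nt.ExceptionalBases
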